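import Pool.Agent.Shared.OneRelator.LocInd
import Pool.Agent.Shared.OneRelator.Fox

/-! Subgroups of one-relator groups with torsion that meet the torsion subgroup trivially. -/

namespace Pool.Agent.Lib.MP_a48479_al

open Pool.Agent.Shared.OneRelator Pool.Agent.Shared.StallingsSwan

theorem ker_mk_core {X : Type} (R : Set (FreeGroup X)) :
    (PresentedGroup.mk R).ker = Subgroup.normalClosure R := by
  ext w
  rw [MonoidHom.mem_ker, PresentedGroup.mk_eq_one_iff]

theorem core {X G : Type} [Countable X] [Group G] (r : FreeGroup X) (σ : FreeGroup X →* G)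
    (hσ : Function.Surjective σ) (hk : σ.ker = Subgroup.normalClosure {r})
    {g₀ : G} (hg₀ : g₀ ≠ 1) (hfin : IsOfFinOrder g₀) (H : Subgroup G)
    (hH : ∀ h ∈ H, h ∈ Subgroup.closure {g : G | IsOfFinOrder g} → h = 1) : IsFreeGroup H := by
  have hσr : σ r = 1 := by
    rw [← MonoidHom.mem_ker, hk]
    exact Subgroup.subset_normalClosure rfl
  have hr : r ≠ 1 := by
    intro h1
    obtain ⟨w, rfl⟩ := hσ g₀
    have hinj : Function.Injective σ := by
      rw [← MonoidHom.ker_eq_bot_iff, hk, eq_bot_iff]
      exact Subgroup.normalClosure_le_normal (by simp [h1])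
    rw [hinj.isOfFinOrder_iff] at hfin
    exact hg₀ (by rw [hfin.eq_one', map_one])
  obtain ⟨u, s, m, hs, hm, hrs⟩ := exists_prim r hr
  have hσs : σ (FreeGroup.mk s) ^ m = 1 := by
    have h1 := (congrArg σ hrs).symm.trans hσr
    rw [map_mul, map_mul, map_inv, map_pow] at h1
    simpa using h1
  let ρ := PresentedGroup.mk ({FreeGroup.mk s} : Set (FreeGroup X))
  have hρs : ρ (FreeGroup.mk s) = 1 := PresentedGroup.one_of_mem rfl
  have hρr : ρ r = 1 := by
    rw [hrs, map_mul, map_mul, map_pow, hρs, one_pow, mul_one, ← map_mul, mul_inv_cancel, map_one]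
  have hm1 : m ≠ 1 := by
    rintro rfl
    refine hg₀ ((locInd_of_prim hs σ hσ (le_antisymm ?_ ?_)).eq_one_of_isOfFinOrder hfin)
    · rw [hk, ← ker_mk_core {FreeGroup.mk s}]
      exact Subgroup.normalClosure_le_normal (by simpa using hρr)
    · exact Subgroup.normalClosure_le_normal (by simpa using hσs)
  obtain ⟨p, hp, hpm⟩ := Nat.exists_prime_and_dvd hm1
  have : Fact p.Prime := ⟨hp⟩
  have hLI := locInd_of_prim hs ρ (PresentedGroup.mk_surjective _) (ker_mk_core _)
  have hle : σ.ker ≤ ρ.ker := by
    rw [hk]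
    exact Subgroup.normalClosure_le_normal (by simpa using hρr)
  let q := σ.liftOfSurjective hσ ⟨ρ, hle⟩
  have hq : q.comp σ = ρ := σ.liftOfRightInverse_comp _ _ _
  have : Countable G := hσ.countable
  refine isFreeGroup_of_embeds (k := ZMod p) ρ σ hσ ?_ H.subtype q hq ?_ hLI
  · rw [hk]
    refine Subgroup.normalClosure_le_normal ?_
    have h1 := fox_pow (k := ZMod p) ρ hρs ((ZMod.natCast_eq_zero_iff m p).2 hpm)
    rw [Set.singleton_subset_iff, SetLike.mem_coe, MonoidHom.mem_ker, hrs, map_mul, map_mul, h1]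
    simp
  · rw [injective_iff_map_eq_one]
    intro h hh
    obtain ⟨w, hw⟩ := hσ h
    have h1 : w ∈ Subgroup.normalClosure {FreeGroup.mk s} := by
      rw [← ker_mk_core, MonoidHom.mem_ker]
      change ρ w = 1
      rw [← hq, MonoidHom.comp_apply, hw]
      exact hh
    have h2 : Subgroup.normalClosure {FreeGroup.mk s} ≤
        (Subgroup.closure {g : G | IsOfFinOrder g}).comap σ := by
      rw [Subgroup.normalClosure, Subgroup.closure_le]
      intro a ha
      obtain ⟨b, hb, hab⟩ := Group.mem_conjugatesOfSet_iff.1 ha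
      rw [Set.mem_singleton_iff.1 hb] at hab
      obtain ⟨c, rfl⟩ := isConj_iff.1 hab
      refine Subgroup.subset_closure (isOfFinOrder_iff_pow_eq_one.2 ⟨m, hm, ?_⟩)
      rw [map_mul, map_mul, map_inv, conj_pow, hσs]
      simp
    exact Subtype.ext (hH h h.2 (hw ▸ h2 h1))

/-- a free basis as a subset of the ambient group -/
theorem exists_set {ι : Type*} {G : Type*} [Group G] (ψ : FreeGroup ι →* G)
    (hψ : Function.Injective ψ) :
    ∃ S : Set G, Subgroup.closure S = ψ.range ∧
      Function.Injective (FreeGroup.lift (Subtype.val : S → G)) := by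
  have h1 : Function.Injective fun i => ψ (FreeGroup.of i) := hψ.comp FreeGroup.of_injective
  let e := Equiv.ofInjective _ h1
  have h2 : (FreeGroup.lift (Subtype.val : Set.range (fun i => ψ (FreeGroup.of i)) → G)).comp
      (FreeGroup.freeGroupCongr e).toMonoidHom = ψ := by
    ext i
    simp [e]
  refine ⟨Set.range fun i => ψ (FreeGroup.of i), ?_, ?_⟩
  · have h3 : ψ = FreeGroup.lift fun i => ψ (FreeGroup.of i) := by ext i; simp
    conv_rhs => rw [h3, FreeGroup.range_lift_eq_closure]
  · have h3 : Function.Injective ((FreeGroup.lift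
        (Subtype.val : Set.range (fun i => ψ (FreeGroup.of i)) → G)) ∘
        (FreeGroup.freeGroupCongr e)) := by
      rw [← h2] at hψ
      exact hψ
    exact h3.of_comp_right (FreeGroup.freeGroupCongr e).surjective

theorem main {X : Type*} {G : Type*} [Countable X] [Group G] (r : FreeGroup X)
    (σ : FreeGroup X →* G) (hσ : Function.Surjective σ) (hk : σ.ker = Subgroup.normalClosure {r})
    {g₀ : G} (hg₀ : g₀ ≠ 1) (hfin : IsOfFinOrder g₀) (H : Subgroup G)
    (hH : ∀ h ∈ H, h ∈ Subgroup.closure {g : G | IsOfFinOrder g} → h = 1) :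
    ∃ S : Set G, Subgroup.closure S = H ∧
      Function.Injective (FreeGroup.lift (Subtype.val : S → G)) := by
  obtain ⟨f, hf⟩ := Countable.exists_injective_nat X
  let φ := FreeGroup.freeGroupCongr (Equiv.ofInjective f hf)
  let τ : FreeGroup (Set.range f) →* G := σ.comp φ.symm.toMonoidHom
  have hτ : Function.Surjective τ := hσ.comp φ.symm.surjective
  let e := QuotientGroup.quotientKerEquivOfSurjective τ hτ
  have hk' : (QuotientGroup.mk' τ.ker).ker = Subgroup.normalClosure {φ r} := by
    rw [QuotientGroup.ker_mk', ← MonoidHom.comap_ker, hk, ← Set.image_singleton,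
      ← MulEquiv.coe_toMonoidHom, ← Subgroup.map_normalClosure _ φ.toMonoidHom φ.surjective]
    exact (Subgroup.map_equiv_eq_comap_symm' φ _).symm
  have h1 := core (φ r) (QuotientGroup.mk' τ.ker) (QuotientGroup.mk'_surjective _) hk'
    (g₀ := e.symm g₀) (by simpa using hg₀) (e.symm.toMonoidHom.isOfFinOrder hfin)
    (H.comap e.toMonoidHom) (fun h h1 h2 => e.injective (by
      rw [map_one]
      refine hH _ h1 ?_
      have h3 : Subgroup.closure {g | IsOfFinOrder g} ≤
          (Subgroup.closure {g : G | IsOfFinOrder g}).comap e.toMonoidHom :=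
        (Subgroup.closure_le _).2 fun g hg =>
          Subgroup.subset_closure (e.toMonoidHom.isOfFinOrder hg)
      exact h3 h2))
  obtain ⟨ι, ⟨b⟩⟩ := h1.nonempty_basis
  obtain ⟨S, h2, h3⟩ := exists_set
    (e.toMonoidHom.comp ((H.comap e.toMonoidHom).subtype.comp b.repr.symm.toMonoidHom))
    (e.injective.comp (Subtype.val_injective.comp b.repr.symm.injective))
  refine ⟨S, h2.trans ?_, h3⟩
  ext g
  constructor
  · rintro ⟨w, rfl⟩
    exact (b.repr.symm w).2
  · intro hg
    refine ⟨b.repr ⟨e.symm g, by simpa using hg⟩, ?_⟩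
    change e (b.repr.symm (b.repr _) : H.comap e.toMonoidHom) = g
    rw [MulEquiv.symm_apply_apply]
    exact e.apply_symm_apply g

end Pool.Agent.Lib.MP_a48479_al
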